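import Pool.Agent.helper75.AU.SpecR

/-!
# Project au, part R, module P5B: type (B) with `P_x` normal is impossible
-/

set_option linter.unusedVariables false

namespace Pool.Agent.helper75.AU

open scoped Classical
open Pool.Agent.helper53.AU MulAction

theorem P5B (hBA1 : BA1_stmt) (hBA3 : BA3_stmt) (hBA4 : BA4_stmt) (hF1 : F1_stmt) :
    P5B_stmt := by
  intro k G X _ _ _ _ _ _ l R x y hS h2 hPy hN
  -- basic facts
  have hP3 : IsPGroup 3 (R.P x) := (hBA1 k G X (l + 1) R x).1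
  have hle : R.P x ≤ stabilizer G x := by
    intro s hs
    exact (((hBA1 k G X (l + 1) R x).2.1 s).1 hs).1
  -- a point of the orbit of `y` has trivial wild group
  have hPy' : ∀ a s : G, s ∈ R.P (a • y) → s = 1 := by
    intro a s hs
    have h1 := ((hBA1 k G X (l + 1) R y).2.2.2.1 a (a⁻¹ * s * a))
    have h3 : a * (a⁻¹ * s * a) * a⁻¹ = s := by group
    rw [h3] at h1
    have h4 := h1.1 hs
    rw [hPy, Subgroup.mem_bot] at h4
    have h5 : s = a * (a⁻¹ * s * a) * a⁻¹ := h3.symm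
    rw [h5, h4]
    group
  -- the different exponents of `P_x`
  have hdx : R.d (R.P x) x + 1 = qq R x + R.T x := by
    have h3 := (hBA3 k G X (l + 1) R x (R.P x)).2.2.1
    have h4 := (hBA3 k G X (l + 1) R x (R.P x)).2.2.2.1 le_rfl
    rw [h3, h4, inf_eq_left.2 hle]
    rfl
  have hdy : R.d (R.P x) y = 0 := by
    refine (hBA3 k G X (l + 1) R y (R.P x)).2.2.2.2.2.2.1 ?_
    rw [Subgroup.eq_bot_iff_forall]
    rintro s ⟨hs, hs'⟩
    obtain ⟨n, hn⟩ := hP3 ⟨s, hs⟩
    have hn' : s ^ (3 ^ n) = 1 := congrArg Subtype.val hn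
    have h3 := (hBA1 k G X (l + 1) R y).2.2.1 s hs' ⟨n, hn'⟩
    rwa [hPy, Subgroup.mem_bot] at h3
  have hdz : ∀ z : X, z ∉ orbit G x → z ∉ orbit G y → R.d (R.P x) z = 0 := by
    intro z hz hz'
    refine (hBA3 k G X (l + 1) R z (R.P x)).2.2.2.2.2.2.1 ?_
    have h3 : stabilizer G z = ⊥ := by
      by_contra hne
      rcases h2.cov z hne with h | h
      · exact hz h
      · exact hz' h
    rw [h3, inf_bot_eq]
  have hinv : ∀ (a : G) (z : X), R.d (R.P x) (a • z) = R.d (R.P x) z := by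
    intro a z
    refine ((hBA3 k G X (l + 1) R z (R.P x)).2.2.2.2.2.2.2.1 a ?_).1
    intro s
    constructor
    · intro hs
      have h3 := hN.conj_mem _ hs a⁻¹
      have h4 : a⁻¹ * (a * s * a⁻¹) * a⁻¹⁻¹ = s := by group
      rwa [h4] at h3
    · intro hs
      exact hN.conj_mem s hs a
  -- Riemann-Hurwitz for `P_x`
  obtain ⟨γ, hγ⟩ := R.RH (R.P x)
  have hsum : (∑ z : X, ∑ s ∈ Finset.univ.filter (fun s : G => s ∈ R.P x ∧ s ≠ 1 ∧ s • z = z),
      ((R.i z s : ℤ) + 1)) = ∑ z : X, (R.d (R.P x) z : ℤ) := by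
    refine Finset.sum_congr rfl fun z _ => ?_
    simp only [Ram.d, Nat.cast_sum, Nat.cast_add, Nat.cast_one]
  have hsum2 := (hBA4 G X).2.2.1 (fun z => (R.d (R.P x) z : ℤ)) x y
    (fun a z => by simp only [hinv a z]) h2.ne
    (fun z hz hz' => by simp only [hdz z hz hz', Nat.cast_zero])
  rw [hsum, hsum2] at hγ
  have hTy : R.T y = 0 := by
    unfold Ram.T
    refine Finset.sum_eq_zero fun s hs => ?_
    rw [Finset.mem_filter, hPy, Subgroup.mem_bot] at hs
    exact absurd hs.2.1 hs.2.2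
  have hrh := h2.rh
  rw [hTy, mul_zero, add_zero] at hrh
  have hdx' : (R.d (R.P x) x : ℤ) = qq R x + R.T x - 1 := by
    have : ((R.d (R.P x) x + 1 : ℕ) : ℤ) = ((qq R x + R.T x : ℕ) : ℤ) := by rw [hdx]
    push_cast at this
    linarith
  simp only [hdy, hdx', Nat.cast_zero, mul_zero, add_zero] at hγ
  have hrh' : (2 * ((l : ℤ) + 1) + oo G x + oo G y : ℤ) = 2 + oo G x * R.T x := by
    have : ((2 * (l + 1) + oo G x + oo G y : ℕ) : ℤ) = ((2 + oo G x * R.T x : ℕ) : ℤ) := by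
      rw [hrh]
    push_cast at this
    exact this
  have hq : (Nat.card (R.P x) : ℤ) = qq R x := rfl
  rw [hq] at hγ
  have hnx : Nonempty (orbit G x) := ⟨⟨x, mem_orbit_self x⟩⟩
  have hny : Nonempty (orbit G y) := ⟨⟨y, mem_orbit_self y⟩⟩
  have hxpos : 1 ≤ oo G x := Nat.card_pos
  have hypos : 1 ≤ oo G y := Nat.card_pos
  have hqpos : 1 ≤ qq R x := Nat.card_pos
  -- `q (2 - 2 γ) = |O| q + |O_2|`
  have hkey : (qq R x : ℤ) * (2 - 2 * (γ : ℤ)) = oo G x * qq R x + oo G y := by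
    push_cast at hγ
    linear_combination hγ - hrh'
  have hone : oo G x = 1 := by
    by_contra hne
    have h3 : 2 ≤ oo G x := by omega
    have h4 : (2 : ℤ) ≤ oo G x := by exact_mod_cast h3
    have h5 : (1 : ℤ) ≤ oo G y := by exact_mod_cast hypos
    have h6 : (1 : ℤ) ≤ qq R x := by exact_mod_cast hqpos
    have h7 : (0 : ℤ) ≤ γ := Int.natCast_nonneg γ
    nlinarith [mul_nonneg (by linarith : (0 : ℤ) ≤ qq R x) h7,
      mul_nonneg (by linarith : (0 : ℤ) ≤ qq R x) (by linarith : (0 : ℤ) ≤ (oo G x : ℤ) - 2)]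
  -- two fixed points of `P_x`
  obtain ⟨-, x₁, x₂, hne, -, -, hc1, hc2⟩ := hF1 k G X l R (R.P x) hS.mod3 hP3 h2.wild
  have horb : ∀ w : X, Cl1 R w → w ∈ orbit G x := by
    rintro w ⟨s, hs, hs1, -⟩
    have hst : stabilizer G w ≠ ⊥ := by
      intro hbot
      have h3 : s ∈ stabilizer G w := (((hBA1 k G X (l + 1) R w).2.1 s).1 hs).1
      rw [hbot, Subgroup.mem_bot] at h3
      exact hs1 h3
    rcases h2.cov w hst with h | ⟨a, ha⟩
    · exact h
    · exfalso
      have ha' : a • y = w := ha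
      rw [← ha'] at hs
      exact hs1 (hPy' a s hs)
  have hsub : Subsingleton (orbit G x) := (Nat.card_eq_one_iff_unique.1 hone).1
  have := congrArg Subtype.val
    (@Subsingleton.elim _ hsub ⟨x₁, horb x₁ hc1⟩ ⟨x₂, horb x₂ hc2⟩)
  exact hne this

end Pool.Agent.helper75.AU
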