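import Pool.Agent.helper87.AU.SpecQ1

/-!
# Project au, module QR3: Riemann's theorem
-/

namespace Pool.Agent.helper53.AU

open scoped Classical

theorem QR3_degD_add {k F : Type} [Field k] [Field F] [Algebra k F] (D D' : Place k F →₀ ℤ) :
    degD (D + D') = degD D + degD D' := by
  unfold degD
  exact Finsupp.sum_add_index' (fun _ => rfl) (fun _ _ _ => rfl)

theorem QR3_degD_sub {k F : Type} [Field k] [Field F] [Algebra k F] (D D' : Place k F →₀ ℤ) :
    degD (D - D') = degD D - degD D' := by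
  have h := QR3_degD_add (D - D') D'
  rw [sub_add_cancel] at h
  linarith

theorem QR3 (h1 : QR1_stmt) (h6 : QV6_stmt) : QR3_stmt := by
  intro k F _ _ _ _ hF g hg
  have hfirst : ∀ D : Place k F →₀ ℤ, degD D + 1 - (g : ℤ) ≤ (ell D : ℤ) := by
    intro D
    have h := hg.2 ⟨D, rfl⟩
    have h' : degD D + 1 - (ell D : ℤ) ≤ (g : ℤ) := h
    linarith
  refine ⟨hfirst, ?_⟩
  obtain ⟨D₀, hD₀⟩ := hg.1
  have hD₀' : degD D₀ + 1 - (ell D₀ : ℤ) = g := hD₀
  refine ⟨degD D₀ + g, fun D hD => ?_⟩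
  have h2 := hfirst (D - D₀)
  rw [QR3_degD_sub] at h2
  have h3 : 1 ≤ ell (D - D₀) := by
    have h3' : (1 : ℤ) ≤ (ell (D - D₀) : ℤ) := by linarith
    exact_mod_cast h3'
  obtain ⟨-, -, hmono⟩ := h1 k F hF
  have h4 : RR (D - D₀) ≠ ⊥ := by
    intro h
    unfold ell at h3
    rw [h, finrank_bot] at h3
    omega
  obtain ⟨z, hz, hz0⟩ := Submodule.exists_mem_ne_zero_of_ne_bot h4
  have hz' : ∀ P : Place k F, -(D - D₀) P ≤ P.ord z := hz.resolve_left hz0
  obtain ⟨hp, hdeg, hell⟩ := h6 k F hF z hz0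
  have hle : D₀ ≤ D + prin (k := k) z := by
    intro P
    have h := hz' P
    rw [Finsupp.add_apply, hp P]
    rw [Finsupp.sub_apply] at h
    linarith
  have h5 := (hmono D₀ (D + prin (k := k) z) hle).2
  rw [hell, QR3_degD_add, hdeg] at h5
  have h7 := hfirst D
  linarith

end Pool.Agent.helper53.AU
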