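import Pool.Agent.helper53.AU.SpecG3

/-!
# Project au, module TG: Theorem G from G5, B6, C9 (induction on the order)
-/

namespace Pool.Agent.helper53.AU

open scoped Classical

theorem TG_comm {L : Type} [Group L] (A : Subgroup L) (hA : IsCyclic A) (a b : L) (ha : a ∈ A)
    (hb : b ∈ A) : a * b = b * a := by
  obtain ⟨g, hg⟩ := hA.exists_generator
  obtain ⟨m, hm⟩ := Subgroup.mem_zpowers_iff.1 (hg ⟨a, ha⟩)
  obtain ⟨n, hn⟩ := Subgroup.mem_zpowers_iff.1 (hg ⟨b, hb⟩)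
  have h1 : (⟨a, ha⟩ : A) * ⟨b, hb⟩ = ⟨b, hb⟩ * ⟨a, ha⟩ := by
    rw [← hm, ← hn, ← zpow_add, ← zpow_add, add_comm]
  exact congrArg Subtype.val h1

/-- the inductive step -/
theorem TG_step (hPLL : PLL_stmt) (hAB : AB_stmt) (hP1 : P1_stmt) (hP6 : P6_stmt)
    (hG5 : G5_stmt) (hB6 : B6_stmt) (hC9 : C9_stmt) {L Ω : Type} [Group L] [MulAction L Ω]
    {A : Subgroup L} (h : LL L Ω A) (ih : TGlt (Nat.card L)) : GCon L Ω A := by
  have := h.finL
  obtain ⟨t, ht⟩ := h.dih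
  have hD : DihW A t := ht
  obtain ⟨hodd, htwo, -, -, -, -, -, hdec, -, hnorm⟩ := hAB L A h.cyc
  have hcomm := TG_comm A h.cyc
  have hoA : ∀ b ∈ oddPart A, b ∈ A := fun b hb => ((hodd b).1 hb).1
  have htA : ∀ c ∈ twoPart A, c ∈ A := fun c hc => ((htwo c).1 hc).1
  have htinv : ∀ c ∈ twoPart A, t * c * t⁻¹ = c⁻¹ := fun c hc =>
    hD.2.2 c (htA c hc) ((htwo c).1 hc).2
  -- it is enough that `t` inverts the odd part
  have key : (∀ b ∈ oddPart A, t * b * t⁻¹ = b⁻¹) → GCon L Ω A := by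
    intro hb
    refine hG5 L Ω A t h hD fun a ha => ?_
    obtain ⟨b, hb', c, hc', rfl⟩ := hdec a ha
    have e1 : t * (b * c) * t⁻¹ = (t * b * t⁻¹) * (t * c * t⁻¹) := by group
    rw [e1, hb b hb', htinv c hc', ← mul_inv_rev, hcomm c b (htA c hc') (hoA b hb')]
  rcases hC9 L Ω A t h hD ih with h1 | h1
  · have hbot := hB6 L Ω A t h hD h1 ih
    refine key fun b hb => ?_
    rw [hbot, Subgroup.mem_bot] at hb
    subst hb
    simp
  · have hPL := hPLL L Ω A h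
    obtain ⟨τ, hτA, hτ⟩ := (hP1 L Ω A hPL).1
    obtain ⟨-, htnA, -, -, -⟩ := hP6 L Ω A hPL τ t hτA hτ hD
    have hle : oddPart A ≤ A := fun b hb => hoA b hb
    have htn := hnorm (oddPart A) hle t htnA
    refine key fun b hb => ?_
    have hinv : t⁻¹ = t := inv_eq_of_mul_eq_one_left hD.1
    have hu : b * (t * b * t⁻¹) ∈ oddPart A := Subgroup.mul_mem _ hb (htn b hb)
    have hfix : t * (b * (t * b * t⁻¹)) = b * (t * b * t⁻¹) * t := by
      have e2 : t * (b * (t * b * t⁻¹)) = (t * b * t⁻¹) * (t * t * b * t⁻¹ * t⁻¹) * t := by group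
      rw [e2, hD.1, one_mul]
      have e3 : b * t⁻¹ * t⁻¹ = b := by
        rw [hinv, mul_assoc, hD.1, mul_one]
      rw [e3, hcomm (t * b * t⁻¹) b (hoA _ (htn b hb)) (hoA b hb)]
    have h2 := h1 _ hu hfix
    exact (inv_eq_of_mul_eq_one_right h2).symm

theorem TG (hPLL : PLL_stmt) (hAB : AB_stmt) (hP1 : P1_stmt) (hP6 : P6_stmt)
    (hG5 : G5_stmt) (hB6 : B6_stmt) (hC9 : C9_stmt) : TG_stmt := by
  have main : ∀ n : ℕ, TGlt n := by
    intro n
    induction n with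
    | zero => intro L Ω _ _ A _ hlt; exact absurd hlt (Nat.not_lt_zero _)
    | succ n ihn =>
      intro L Ω _ _ A h hlt
      refine TG_step hPLL hAB hP1 hP6 hG5 hB6 hC9 h ?_
      intro L' Ω' _ _ A' h' hlt'
      exact ihn L' Ω' A' h' (lt_of_lt_of_le hlt' (Nat.lt_succ_iff.1 hlt))
  intro L Ω _ _ A h
  exact main (Nat.card L + 1) L Ω A h (Nat.lt_succ_self _)

end Pool.Agent.helper53.AU
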